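import Mathlib

set_option autoImplicit false

namespace Pool.Agent.Results.MP_6b7ad2_lc.Gdelta

open Filter Topology Set Relation TopologicalSpace

variable {G X : Type} [Group G] [TopologicalSpace X] [MulAction G X]

/-- The local orbit O(x,U,V): the component of x in the (U,V)-local graph. -/
def orb (U : Set X) (V : Set G) (x : X) : Set X :=
  {y | ReflTransGen (fun a b => a ∈ U ∧ b ∈ U ∧ ∃ g ∈ V, g • a = b) x y}

/-- Turbulent points. -/
def Turbulent (G : Type) {X : Type} [Group G] [TopologicalSpace G] [TopologicalSpace X]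
    [MulAction G X] (x : X) : Prop :=
  ∀ U : Set X, IsOpen U → x ∈ U → ∀ V : Set G, IsOpen V → 1 ∈ V → V⁻¹ = V →
    (interior (closure (orb U V x))).Nonempty

variable [ContinuousConstSMul G X] {U : Set X} {V : Set G}

lemma move (hU : IsOpen U) {a b : X} (h : b ∈ orb U V a) :
    ∃ g : G, g • a = b ∧ ∀ᶠ a' in 𝓝 a, g • a' ∈ orb U V a' := by
  induction h with
  | refl => exact ⟨1, one_smul _ _, Eventually.of_forall fun a => by rw [one_smul]; exact .refl⟩
  | tail _ h ih =>
    obtain ⟨g, rfl, hg⟩ := ih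
    obtain ⟨h1, h2, k, hk, rfl⟩ := h
    refine ⟨k * g, mul_smul _ _ _, ?_⟩
    filter_upwards [hg, (hU.preimage (continuous_const_smul g)).mem_nhds h1,
      (hU.preimage (continuous_const_smul (k * g))).mem_nhds (by simpa [mul_smul] using h2)]
      with a' e1 e2 e3
    exact e1.tail ⟨e2, e3, k, hk, (mul_smul _ _ _).symm⟩

lemma op (hU : IsOpen U) {W : Set X} (hW : IsOpen W) : IsOpen {y | (W ∩ orb U V y).Nonempty} := by
  refine isOpen_iff_mem_nhds.2 fun y ⟨w, h1, h2⟩ => ?_
  obtain ⟨g, rfl, hg⟩ := move hU h2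
  filter_upwards [hg, (hW.preimage (continuous_const_smul g)).mem_nhds h1] with a e1 e2
  exact ⟨_, e2, e1⟩

lemma cl (hU : IsOpen U) {z w y : X} (hw : w ∈ closure (orb U V z)) (hy : y ∈ orb U V w) :
    y ∈ closure (orb U V z) := by
  refine mem_closure_iff.2 fun W hW hyW => ?_
  obtain ⟨a, ⟨b, b1, b2⟩, a2⟩ := mem_closure_iff.1 hw _ (op (V := V) hU hW) ⟨y, hyW, hy⟩
  exact ⟨b, b1, ReflTransGen.trans a2 b2⟩

omit [TopologicalSpace X] [ContinuousConstSMul G X] in
lemma sym (hV : V⁻¹ = V) {a b : X} (h : b ∈ orb U V a) : a ∈ orb U V b := by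
  induction h with
  | refl => exact .refl
  | tail _ h ih =>
    obtain ⟨h1, h2, k, hk, rfl⟩ := h
    exact ReflTransGen.head ⟨h2, h1, k⁻¹, hV ▸ inv_mem_inv.2 hk, inv_smul_smul _ _⟩ ih

lemma self_mem (hU : IsOpen U) (hV : V⁻¹ = V) {z : X}
    (h : (interior (closure (orb U V z))).Nonempty) : z ∈ interior (closure (orb U V z)) := by
  obtain ⟨u, hu⟩ := h
  obtain ⟨w, w1, w2⟩ := mem_closure_iff.1 (interior_subset hu) _ isOpen_interior hu
  obtain ⟨g, hz, hg⟩ := move hU (sym hV w2)
  rw [mem_interior_iff_mem_nhds] at w1 ⊢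
  have : 𝓝 z = map (g • ·) (𝓝 w) := by
    rw [← hz]; exact ((Homeomorph.smul g).map_nhds_eq w).symm
  rw [this, mem_map]
  filter_upwards [hg, w1] with a e1 e2
  exact cl hU e2 e1

lemma sub (hU : IsOpen U) (hV : V⁻¹ = V) {z z' y : X} (h : y ∈ interior (closure (orb U V z)))
    (h' : y ∈ interior (closure (orb U V z'))) :
    interior (closure (orb U V z)) ⊆ interior (closure (orb U V z')) := by
  obtain ⟨w, w1, w2⟩ := mem_closure_iff.1 (interior_subset h) _ isOpen_interior h'
  exact interior_mono (closure_minimal (fun a ha => cl hU (interior_subset w1)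
    (ReflTransGen.trans (sym hV w2) ha)) isClosed_closure)

lemma gd [SecondCountableTopology X] (hU : IsOpen U) (hV : V⁻¹ = V) :
    IsGδ {y | (interior (closure (orb U V y))).Nonempty} := by
  have : {y | (interior (closure (orb U V y))).Nonempty} =
      (⋃ z, interior (closure (orb U V z))) ∩ ⋂ W ∈ countableBasis X, ⋃ z,
        interior (closure (orb U V z)) ∩ {y | (W ∩ interior (closure (orb U V z))).Nonempty →
          (W ∩ orb U V y).Nonempty} := by
    ext y
    simp only [mem_inter_iff, mem_iUnion, mem_iInter, mem_ofPred_eq]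
    constructor
    · intro h
      refine ⟨⟨y, self_mem hU hV h⟩, fun W hW => ⟨y, self_mem hU hV h, fun ⟨a, a1, a2⟩ => ?_⟩⟩
      exact mem_closure_iff.1 (interior_subset a2) _ (isOpen_of_mem_countableBasis hW) a1
    · rintro ⟨⟨z, hz⟩, h⟩
      refine ⟨y, interior_maximal (fun a ha => ?_) isOpen_interior hz⟩
      refine (isBasis_countableBasis X).mem_closure_iff.2 fun W hW haW => ?_
      obtain ⟨z', h1, h2⟩ := h W hW
      exact h2 ⟨a, haW, sub hU hV hz h1 ha⟩
  rw [this]
  refine (isOpen_iUnion fun _ => isOpen_interior).isGδ.inter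
    (IsGδ.biInter (countable_countableBasis X) fun W hW => IsOpen.isGδ
      (isOpen_iUnion fun z => isOpen_interior.inter ?_))
  by_cases h : (W ∩ interior (closure (orb U V z))).Nonempty
  · simpa [h] using op hU (isOpen_of_mem_countableBasis hW)
  · simp [h]

/-- The set of turbulent points of a Polish G-space is a G-delta set. -/
theorem result (G X : Type) [Group G] [TopologicalSpace G] [IsTopologicalGroup G] [PolishSpace G]
    [TopologicalSpace X] [PolishSpace X] [MulAction G X] [ContinuousSMul G X] :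
    IsGδ {x : X | Turbulent G x} := by
  have : {x : X | Turbulent G x} = ⋂ U ∈ countableBasis X, ⋂ V ∈ {V ∈ countableBasis G | 1 ∈ V},
      Uᶜ ∪ {y | (interior (closure (orb U (V ∩ V⁻¹) y))).Nonempty} := by
    ext x
    simp only [mem_iInter, mem_union, mem_compl_iff, mem_ofPred_eq, ← imp_iff_not_or]
    constructor
    · intro h U hU V hV hx
      have := isOpen_of_mem_countableBasis hV.1
      exact h U (isOpen_of_mem_countableBasis hU) hx _ (this.inter this.inv)
        ⟨hV.2, by simpa using hV.2⟩ (by simp [inter_comm])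
    · intro h U hU hx V hV h1 _
      obtain ⟨U', a1, a2, a3⟩ := (isBasis_countableBasis X).exists_subset_of_mem_open hx hU
      obtain ⟨V', b1, b2, b3⟩ := (isBasis_countableBasis G).exists_subset_of_mem_open h1 hV
      refine (h U' a1 V' ⟨b1, b2⟩ a2).mono (interior_mono (closure_mono fun y hy => ?_))
      induction hy with
      | refl => exact .refl
      | tail _ h ih =>
        obtain ⟨c1, c2, g, c3, c4⟩ := h
        exact ih.tail ⟨a3 c1, a3 c2, g, b3 c3.1, c4⟩
  rw [this]
  exact IsGδ.biInter (countable_countableBasis X) fun U hU =>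
    IsGδ.biInter ((countable_countableBasis G).mono fun _ h => h.1) fun V _ =>
      (isOpen_of_mem_countableBasis hU).isClosed_compl.isGδ.union
        (gd (isOpen_of_mem_countableBasis hU) (by simp [inter_comm]))

end Pool.Agent.Results.MP_6b7ad2_lc.Gdelta
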